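import Pool.Agent.MP_db5b97_nt.H55.CT2

/-! A map of two-term complexes that is an isomorphism on all cyclic layers detects
coboundaries. -/

namespace Pool.Agent.MP_db5b97_nt.H55

open H85

section

variable {P U' I' U I C : Type} [Group P] [AddCommGroup U'] [DistribMulAction P U']
  [AddCommGroup I'] [DistribMulAction P I'] [AddCommGroup U] [DistribMulAction P U]
  [AddCommGroup I] [DistribMulAction P I] [AddCommGroup C] [DistribMulAction P C]
  {p : ℕ} {Q : Subgroup P} {σ : P} {a' : U' →+ I'} {a : U →+ I} {nU : U' →+ U} {nI : I' →+ I}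

variable (P a' nU) in
/-- the diagonal embedding -/
def dg : U' →+ I' × U × Co P U' :=
  AddMonoidHom.mk' (fun u => (a' u, nU u, fun t => t • u)) fun x y =>
    Prod.ext (map_add a' x y) (Prod.ext (map_add nU x y) (funext fun t => smul_add t x y))

omit [DistribMulAction P I'] [DistribMulAction P U] in
theorem dg_inj : Function.Injective (dg P a' nU) := fun x y h => by
  have : (1 : P) • x = (1 : P) • y := congrFun (congrArg (fun e => e.2.2) h) 1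
  rwa [one_smul, one_smul] at this

theorem dg_eqv (h1 : Eqv P a') (h2 : Eqv P nU) : Eqv P (dg P a' nU) := fun s x =>
  Prod.ext (h1 s x) (Prod.ext (h2 s x) (funext fun t => (mul_smul t s x).symm))

variable (L : Lyr p Q σ) (H : LayHyp p Q σ a' a nU nI) (h1 : Eqv P a') (h2 : Eqv P nU)
  (h9 : H90 U' Q) {π : I' × U × Co P U' →+ C} (hs : Function.Surjective π) (hπ : Eqv P π)
  (he : ∀ b, π b = 0 ↔ ∃ u, dg P a' nU u = b)
include L H h1 h2 h9 hs hπ he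

theorem c_h1 : H1z C p Q σ := by
  intro x hx h
  have hι := dg_eqv h1 h2
  obtain ⟨e, he1, rfl⟩ := fix_lift hι hπ dg_inj hs he h9 hx
  obtain ⟨u, hu⟩ := (he (Nm σ p e)).1 (by rw [hπ.nm, h])
  have hu1 : u ∈ Fix U' Q := hι.fix_of dg_inj (hu ▸ L.nf p he1)
  have hu2 : σ • u = u := dg_inj (by rw [hι, hu, L.dn he1])
  have f1 := fix_prod.1 he1
  have f2 := fix_prod.1 f1.2
  have hu' := hu
  rw [nm_prod, nm_prod] at hu'
  obtain ⟨v, hv, rfl⟩ := H.kinj u hu1 hu2 ⟨_, f1.1, (congrArg Prod.fst hu').symm⟩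
    ⟨_, f2.1, (congrArg (fun e => e.2.1) hu').symm⟩
  obtain ⟨y, hy, e1⟩ := h1_prod H.hI' (h1_prod H.hU L.co_h1) (e - dg P a' nU v)
    (sub_mem he1 (hι.fix hv)) (by rw [map_sub, ← hu, hι.nm, sub_self])
  refine ⟨π y, hπ.fix hy, ?_⟩
  rw [← hπ, ← map_sub, ← e1, map_sub, (he _).2 ⟨v, rfl⟩, sub_zero]

theorem c_lift {x : C} (hx : x ∈ Fix C Q) (h : σ • x = x) :
    ∃ e ∈ Fix (I' × U × Co P U') Q, σ • e = e ∧ π e = x := by
  have hι := dg_eqv h1 h2
  obtain ⟨e, he1, rfl⟩ := fix_lift hι hπ dg_inj hs he h9 hx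
  obtain ⟨u, hu⟩ := (he (σ • e - e)).1 (by rw [map_sub, hπ, h, sub_self])
  obtain ⟨v, hv, rfl⟩ := H.hU' u (hι.fix_of dg_inj (hu ▸ L.df he1))
    (dg_inj (by rw [hι.nm, hu, L.nd he1, map_zero]))
  refine ⟨e - dg P a' nU v, sub_mem he1 (hι.fix hv), ?_, ?_⟩
  · rw [map_sub, hι] at hu
    rw [smul_sub]
    linear_combination (norm := abel1) -hu
  · rw [map_sub, (he _).2 ⟨v, rfl⟩, sub_zero]

theorem c_inj (h4 : Eqv P nI) (hc : ∀ x, a (nU x) = nI (a' x)) {r : C →+ I}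
    (hr : ∀ e, r (π e) = nI e.1 - a e.2.1) {x : C} (hx : x ∈ Fix C Q) (h : σ • x = x)
    (hn : r x ∈ Ns I p Q σ) : x ∈ Ns C p Q σ := by
  have hι := dg_eqv h1 h2
  obtain ⟨e, he1, he2, rfl⟩ := c_lift L H h1 h2 h9 hs hπ he hx h
  have f1 := fix_prod.1 he1
  have f2 := fix_prod.1 f1.2
  have g1 : σ • e.1 = e.1 := congrArg Prod.fst he2
  have g2 : σ • e.2.1 = e.2.1 := congrArg (fun e => e.2.1) he2
  rw [hr] at hn
  obtain ⟨u, hu1, hu2, hu3⟩ := H.cinj _ f1.1 g1 _ f2.1 g2 hn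
  obtain ⟨v, hv1, hv2, hv3, hv4⟩ := H.ksurj (e.2.1 - nU u) (sub_mem f2.1 (h2.fix hu1))
    (by rw [smul_sub, g2, ← h2, hu2]) (by
      obtain ⟨D, hD, e1⟩ := hu3
      have : nI (e.1 - a' u) ∈ Ns I p Q σ := ⟨nI D, h4.fix hD, by rw [← h4.nm, e1]⟩
      have := sub_mem this hn
      rwa [map_sub, ← hc, sub_sub_sub_cancel_left, ← map_sub] at this)
  have k1 : e - dg P a' nU (u + v) ∈ Fix _ Q := sub_mem he1 (hι.fix (add_mem hu1 hv1))
  have k2 : σ • (e - dg P a' nU (u + v)) = e - dg P a' nU (u + v) := by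
    rw [smul_sub, he2, ← hι, smul_add, hu2, hv2]
  obtain ⟨y1, hy1, e1⟩ := sub_mem hu3 hv3
  obtain ⟨y2, hy2, e2⟩ := neg_mem hv4
  obtain ⟨y3, hy3, e3⟩ := L.co_h0 _ (fix_prod.1 (fix_prod.1 k1).2).2
    (congrArg (fun e => e.2.2) k2)
  have e4 : Nm σ p (y1, y2, y3) = e - dg P a' nU (u + v) := by
    rw [nm_prod, nm_prod]
    refine Prod.ext (e1.trans ?_) (Prod.ext (e2.trans ?_) e3)
    · change _ = e.1 - a' (u + v)
      rw [map_add, sub_sub]
    · change _ = e.2.1 - nU (u + v)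
      rw [map_add]
      abel
  refine ⟨π (y1, y2, y3), hπ.fix (fix_prod.2 ⟨hy1, fix_prod.2 ⟨hy2, hy3⟩⟩), ?_⟩
  rw [← hπ.nm, e4, map_sub, (he _).2 ⟨_, rfl⟩, sub_zero]

omit L h1 h2 h9 hs he in
theorem c_srj {r : C →+ I} (hr : ∀ e, r (π e) = nI e.1 - a e.2.1) {D : I} (hD : D ∈ Fix I Q)
    (h : σ • D = D) : ∃ x ∈ Fix C Q, σ • x = x ∧ D - r x ∈ Ns I p Q σ := by
  obtain ⟨D', k1, k2, x, k3, k4, k5⟩ := H.csurj D hD h
  refine ⟨π (D', -x, 0), hπ.fix (fix_prod.2 ⟨k1, fix_prod.2 ⟨neg_mem k3, zero_mem _⟩⟩), ?_, ?_⟩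
  · rw [← hπ, Prod.smul_mk, Prod.smul_mk, k2, smul_neg, k4, smul_zero]
  · rwa [hr, map_neg, sub_neg_eq_add, ← sub_sub]

end

section

variable {P I C Z : Type} [Group P] [AddCommGroup I] [DistribMulAction P I] [AddCommGroup C]
  [DistribMulAction P C] [AddCommGroup Z] [DistribMulAction P Z] {p : ℕ} {Q : Subgroup P} {σ : P}

theorem z_lay (L : Lyr p Q σ) {κ : Z →+ C × Co P I} {ρ : C × Co P I →+ I} (hκ : Eqv P κ)
    (hρ : Eqv P ρ) (hi : Function.Injective κ) (hs : Function.Surjective ρ)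
    (he : ∀ b, ρ b = 0 ↔ ∃ z, κ z = b) (h9 : H90 Z Q) (hI : H1z I p Q σ) (hC : H1z C p Q σ)
    (hj : ∀ x ∈ Fix C Q, σ • x = x → ρ (x, 0) ∈ Ns I p Q σ → x ∈ Ns C p Q σ)
    (hk : ∀ D ∈ Fix I Q, σ • D = D → ∃ x ∈ Fix C Q, σ • x = x ∧ D - ρ (x, 0) ∈ Ns I p Q σ) :
    H0z Z p Q σ ∧ H1z Z p Q σ := by
  refine ⟨fun z hz h => ?_, fun z hz h => ?_⟩
  · have f1 := fix_prod.1 (hκ.fix hz)
    have g1 : σ • κ z = κ z := by rw [← hκ, h]
    obtain ⟨y, hy, e1⟩ := L.co_h0 _ f1.2 (congrArg Prod.snd g1)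
    obtain ⟨x, hx, e2⟩ := hj _ f1.1 (congrArg Prod.fst g1)
      ⟨ρ (0, -y), hρ.fix (fix_prod.2 ⟨zero_mem _, neg_mem hy⟩), by
        rw [← hρ.nm, ← sub_eq_zero, ← map_sub, he]
        refine ⟨-z, ?_⟩
        rw [nm_prod, map_neg, map_neg, e1]
        exact Prod.ext (by simp) (by simp)⟩
    have e3 : Nm σ p (x, y) = κ z := by rw [nm_prod, e1, e2]
    have hb : (x, y) ∈ Fix _ Q := fix_prod.2 ⟨hx, hy⟩
    obtain ⟨D, hD, e4⟩ := hI _ (hρ.fix hb) (by rw [← hρ.nm, e3, (he _).2 ⟨z, rfl⟩])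
    obtain ⟨b, hb', rfl⟩ := fix_lift hκ hρ hi hs he h9 hD
    obtain ⟨w, hw⟩ := (he ((x, y) - (σ • b - b))).1 (by rw [map_sub, e4, map_sub, hρ, sub_self])
    refine ⟨w, hκ.fix_of hi (hw ▸ sub_mem hb (L.df hb')), hi ?_⟩
    rw [hκ.nm, hw, map_sub, e3, L.nd hb', sub_zero]
  · obtain ⟨b, hb, e1⟩ := h1_prod hC L.co_h1 _ (hκ.fix hz) (by rw [← hκ.nm, h, map_zero])
    obtain ⟨x, hx, e2, D, hD, e3⟩ := hk _ (hρ.fix hb) (by
      rw [← hρ, ← sub_eq_zero, ← map_sub, ← e1, (he _).2 ⟨z, rfl⟩])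
    obtain ⟨b', hb', rfl⟩ := fix_lift hκ hρ hi hs he h9 hD
    obtain ⟨w, hw⟩ := (he (b - (x, 0) - Nm σ p b')).1 (by
      rw [map_sub, map_sub, hρ.nm, e3, sub_self])
    refine ⟨w, hκ.fix_of hi (hw ▸ sub_mem (sub_mem hb (fix_prod.2 ⟨hx, zero_mem _⟩))
      (L.nf p hb')), hi ?_⟩
    rw [map_sub, hκ, hw, smul_sub, smul_sub, L.dn hb', Prod.smul_mk σ x, e2, smul_zero, e1]
    abel

end

theorem rowCT : RowCT := by
  intro p pp P U' I' U I M _ _ _ _ _ _ _ _ _ _ _ _ _ a' a nU nI hP h1 h3 h2 h4 hc h9 _ hL c hco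
    hc0 β hβ hβ0
  classical
  have := Fintype.ofFinite P
  have hι : Eqv P (dg P a' nU) := dg_eqv h1 h2
  obtain ⟨C, _, _, π, hs, hπ, he⟩ := ex_quot (dg P a' nU) hι
  let r0 : I' × U × Co P U' →+ I :=
    nI.comp (AddMonoidHom.fst _ _) - a.comp ((AddMonoidHom.fst _ _).comp (AddMonoidHom.snd _ _))
  have hr0 : ∀ x y, π x = π y → r0 x = r0 y := fun x y h => by
    obtain ⟨u, hu⟩ := (he (x - y)).1 (by rw [map_sub, h, sub_self])
    rw [← sub_eq_zero, ← map_sub, ← hu]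
    exact sub_eq_zero.2 (hc u).symm
  choose sec hsec using hs
  have hs : Function.Surjective π := fun x => ⟨_, hsec x⟩
  let r : C →+ I := AddMonoidHom.mk' (fun x => r0 (sec x)) fun x y => by
    rw [← map_add]
    exact hr0 _ _ (by rw [map_add, hsec, hsec, hsec])
  have hr : ∀ e, r (π e) = nI e.1 - a e.2.1 := fun e => hr0 _ _ (hsec _)
  let τ : Co P I →+ I := AddMonoidHom.mk' (fun y => ∑ t : P, t⁻¹ • y t) fun x y => by
    simp only [Co.add_apply, smul_add, Finset.sum_add_distrib]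
  let ρ : C × Co P I →+ I := r.coprod τ
  have hρ0 : ∀ x, ρ (x, 0) = r x := fun x => by simp [ρ]
  have hρ : Eqv P ρ := by
    rintro s ⟨x, y⟩
    obtain ⟨e, rfl⟩ := hs x
    change r (s • π e) + ∑ t : P, t⁻¹ • y (t * s) = s • (r (π e) + ∑ t : P, t⁻¹ • y t)
    rw [← hπ, hr, hr, smul_add, smul_sub, ← h4, ← h3, Finset.smul_sum,
      ← Equiv.sum_comp (Equiv.mulRight s) fun t => s • t⁻¹ • y t]
    simp [mul_smul]
  have hρs : Function.Surjective ρ := fun D => ⟨(0, Pi.single 1 D), by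
    change r 0 + ∑ t : P, t⁻¹ • (Pi.single 1 D : P → I) t = D
    rw [map_zero, zero_add, Finset.sum_eq_single 1] <;> simp +contextual⟩
  obtain ⟨Z, _, _, κ, hi, hκ, he'⟩ := ex_ker ρ hρ
  obtain ⟨k1, k0⟩ := ct2 (A := Z) pp hP fun Q σ L hz => by
    have H := hL Q σ L.nr L.pw L.nm
    refine z_lay L hκ hρ hi hρs he' hz H.hI (c_h1 L H h1 h2 (h9 Q) hs hπ he) ?_ ?_
    · intro x hx h hn
      exact c_inj L H h1 h2 (h9 Q) hs hπ he h4 hc hr hx h (hρ0 x ▸ hn)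
    · intro D hD h
      simpa only [hρ0] using c_srj H hπ hr hD h
  let x : M →+ I' × U × Co P U' := AddMonoidHom.mk' (fun m => (0, β m, fun t => c t m))
    fun m n => Prod.ext (add_zero _).symm (Prod.ext (hβ.1 m trivial n trivial)
      (funext fun t => hco.1 t trivial m trivial n trivial))
  have hx : ∀ (s : P) m, dg P a' nU (c s m) = s • x m - x (s • m) := fun s m =>
    Prod.ext ((hc0 s m).trans (by simp [x]))
      (Prod.ext ((one_smul ℕ _).symm.trans (hβ.2 s trivial m trivial))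
        (funext fun t => eq_sub_of_add_eq' (hco.2 t trivial s trivial m trivial).symm))
  have hz : ∀ m, ∃ z, κ z = (π (x m), 0) := fun m => (he' _).1 (by
    rw [hρ0, hr]
    simp [x, hβ0])
  choose z hz using hz
  obtain ⟨g, hg⟩ := ct1 pp hP k0 k1
    (AddMonoidHom.mk' z fun m n => hi (by simp [hz])) fun s m => hi (by
      have := (he _).2 ⟨_, hx s m⟩
      rw [map_sub, hπ, sub_eq_zero] at this
      rw [hκ, AddMonoidHom.mk'_apply, hz, hz, Prod.smul_mk, this, smul_zero])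
  obtain ⟨g', hg'⟩ := lift_free π hs ((AddMonoidHom.fst _ _).comp (κ.comp g))
  have hu : ∀ m, ∃ u, dg P a' nU u = x m - Tr P g' m := fun m => (he _).1 (by
    have := congrArg (fun z => (κ z).1) (hg m)
    simp only [Tr_apply, map_sum, hκ _ _, AddMonoidHom.mk'_apply, hz, Prod.fst_sum,
      Prod.smul_fst] at this
    simp only [Tr_apply, map_sub, map_sum, hπ _ _, hg', ← this]
    simp)
  choose u hu using hu
  refine ⟨u, fun m _ n _ => dg_inj (P := P) (a' := a') (nU := nU) ?_,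
    fun s _ m _ => dg_inj (P := P) (a' := a') (nU := nU) ?_⟩
  · rw [map_add, hu, hu, hu, map_add, map_add]
    abel
  · rw [one_smul, map_sub, hι, hu, hu, hx, Tr_eqv g', smul_sub]
    abel

end Pool.Agent.MP_db5b97_nt.H55
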