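import Pool.Agent.MP_db5b97_nt.H31.SpecN

/-! Simultaneous prime values of linear forms. -/

namespace Pool.Agent.MP_db5b97_nt.H55

open Filter Topology Finset H31

theorem crt1 {m n : ℕ} (h : m.Coprime n) (hm : 0 < m) (hn : 0 < n) (f g : ℕ → ℝ)
    (hf : ∀ x x', x ≡ x' [MOD m] → f x = f x') (hg : ∀ x x', x ≡ x' [MOD n] → g x = g x') :
    ∑ x ∈ range (m * n), f x * g x = (∑ x ∈ range m, f x) * ∑ x ∈ range n, g x := by
  rw [sum_mul_sum, ← sum_product']
  refine sum_bij (fun x _ => (x % m, x % n)) (fun x _ => ?_) (fun x hx y hy hxy => ?_)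
    (fun v hv => ?_) fun x _ => ?_
  · simp [Nat.mod_lt, hm, hn]
  · obtain ⟨h1, h2⟩ := Prod.mk.inj hxy
    exact Nat.ModEq.eq_of_lt_of_lt ((Nat.modEq_and_modEq_iff_modEq_mul h).1 ⟨h1, h2⟩)
      (mem_range.1 hx) (mem_range.1 hy)
  · obtain ⟨h1, h2⟩ := mem_product.1 hv
    refine ⟨Nat.chineseRemainder h v.1 v.2,
      mem_range.2 (Nat.chineseRemainder_lt_mul h _ _ hm.ne' hn.ne'), Prod.ext ?_ ?_⟩
    · exact Eq.trans (Nat.chineseRemainder h v.1 v.2).2.1 (Nat.mod_eq_of_lt (mem_range.1 h1))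
    · exact Eq.trans (Nat.chineseRemainder h v.1 v.2).2.2 (Nat.mod_eq_of_lt (mem_range.1 h2))
  · rw [hf _ _ (Nat.mod_modEq x m), hg _ _ (Nat.mod_modEq x n)]

theorem crtS (T : Finset ℕ) (hT : ∀ p ∈ T, p.Prime) (u : ℕ → ℕ → ℝ)
    (hu : ∀ p ∈ T, ∀ x x', x ≡ x' [MOD p] → u p x = u p x') :
    ∑ x ∈ range (∏ p ∈ T, p), ∏ p ∈ T, u p x = ∏ p ∈ T, ∑ x ∈ range p, u p x := by
  induction T using Finset.induction_on with
  | empty => simp
  | insert r T hr ih =>
    have h1 : ∀ s ∈ T, s.Prime := fun s hs => hT s (mem_insert_of_mem hs)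
    have h2 := fun s hs => hu s (mem_insert_of_mem (a := s) (b := r) hs)
    have h3 := hT r (mem_insert_self _ _)
    simp only [prod_insert hr]
    rw [← ih h1 h2]
    refine crt1 (Nat.Coprime.prod_right fun s hs =>
      (Nat.coprime_primes h3 (h1 s hs)).2 fun e => hr (e ▸ hs)) h3.pos
      (prod_pos fun s hs => (h1 s hs).pos) _ _ (hu r (mem_insert_self _ _)) fun x x' hx => ?_
    exact prod_congr rfl fun s hs => h2 s hs _ _ (hx.of_dvd (dvd_prod_of_mem _ hs))

theorem per_mul (d : ℕ) (g : ℕ → ℝ) (hg : ∀ x x', x ≡ x' [MOD d] → g x = g x') (q r : ℕ) :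
    ∑ x ∈ range (d * q + r), g x = q * ∑ x ∈ range d, g x + ∑ x ∈ range r, g x := by
  have key : ∀ q r : ℕ, ∑ x ∈ range r, g (d * q + x) = ∑ x ∈ range r, g x := fun q r =>
    sum_congr rfl fun x _ => hg _ _ (by simp [Nat.ModEq])
  rw [sum_range_add, key]
  refine congrArg (· + _) ?_
  induction q with
  | zero => simp
  | succ q ih => rw [Nat.mul_succ, sum_range_add, key, ih]; push_cast; ring

theorem per_err (d : ℕ) (hd : 0 < d) (g : ℕ → ℝ) (hg : ∀ x x', x ≡ x' [MOD d] → g x = g x')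
    (h0 : ∀ x, 0 ≤ g x) (X : ℕ) :
    |∑ x ∈ range X, g x - X * ((∑ x ∈ range d, g x) / d)| ≤ ∑ x ∈ range d, g x := by
  have e := Nat.div_add_mod X d
  have hr := Nat.mod_lt X hd
  set q := X / d
  set r := X % d
  set t := ∑ x ∈ range d, g x with ht
  have h1 : ∑ x ∈ range r, g x ≤ t :=
    sum_le_sum_of_subset_of_nonneg (range_subset_range.2 hr.le) fun x _ _ => h0 x
  have h2 : 0 ≤ ∑ x ∈ range r, g x := sum_nonneg fun x _ => h0 x
  have hd' : (0 : ℝ) < d := by exact_mod_cast hd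
  have h3 : (r : ℝ) * (t / d) ≤ t := by
    rw [mul_div_assoc', div_le_iff₀ hd', mul_comm]
    exact mul_le_mul_of_nonneg_left (by exact_mod_cast hr.le) (h2.trans h1)
  have h4 : 0 ≤ (r : ℝ) * (t / d) := mul_nonneg (Nat.cast_nonneg _) (div_nonneg (h2.trans h1) hd'.le)
  have h5 : (X : ℝ) * (t / d) = q * t + r * (t / d) := by
    rw [← e]; push_cast; field_simp
  rw [h5, ← e, per_mul d g hg, abs_le]
  constructor <;> linarith

open Classical in
theorem loc_card {k p : ℕ} (hp : p.Prime) (α : Fin k → ℕ) (b : Fin k → ℤ)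
    (h1 : ∀ i, ¬ p ∣ α i) (h2 : ∀ i j, i ≠ j → ¬ (p : ℤ) ∣ α i * b j - α j * b i) :
    ((range p).filter fun n : ℕ => ∃ i, (p : ℤ) ∣ α i * n + b i).card = k := by
  have : Fact p.Prime := ⟨hp⟩
  have ha : ∀ i, (α i : ZMod p) ≠ 0 := fun i h => h1 i ((ZMod.natCast_eq_zero_iff _ _).1 h)
  have e : ((range p).filter fun n : ℕ => ∃ i, (p : ℤ) ∣ α i * n + b i) =
      univ.image fun i => (-(b i : ZMod p) / (α i : ZMod p)).val := by
    ext n
    simp only [mem_filter, mem_range, mem_image, mem_univ, true_and]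
    constructor
    · rintro ⟨hn, i, hi⟩
      refine ⟨i, ?_⟩
      have h := (ZMod.intCast_zmod_eq_zero_iff_dvd _ _).2 hi
      push_cast at h
      have h' : -(b i : ZMod p) / (α i : ZMod p) = n := by
        rw [div_eq_iff (ha i)]; linear_combination -h
      rw [h', ZMod.val_natCast, Nat.mod_eq_of_lt hn]
    · rintro ⟨i, rfl⟩
      refine ⟨ZMod.val_lt _, i, (ZMod.intCast_zmod_eq_zero_iff_dvd _ _).1 ?_⟩
      push_cast
      rw [ZMod.natCast_zmod_val, mul_div_cancel₀ _ (ha i), neg_add_cancel]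
  rw [e, card_image_of_injective, card_univ, Fintype.card_fin]
  intro i j hij
  by_contra hne
  refine h2 i j hne ((ZMod.intCast_zmod_eq_zero_iff_dvd _ _).1 ?_)
  have h := ZMod.val_injective p hij
  rw [div_eq_div_iff (ha i) (ha j)] at h
  push_cast
  linear_combination h

open Classical in
theorem cnt_err {k : ℕ} (α : Fin k → ℕ) (b : Fin k → ℤ) (X : ℕ) (S : Finset ℕ)
    (hS : ∀ p ∈ S, p.Prime ∧ k ≤ p ∧ (∀ i, ¬ p ∣ α i) ∧
      ∀ i j, i ≠ j → ¬ (p : ℤ) ∣ α i * b j - α j * b i) :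
    |(((range X).filter fun n => ∀ p ∈ S,
      n ∈ (range X).filter fun n : ℕ => ∃ i, (p : ℤ) ∣ α i * n + b i).card : ℝ) -
      X * ∏ p ∈ S, (k : ℝ) / p| ≤ ((∏ p ∈ S, p : ℕ) : ℝ) := by
  set u : ℕ → ℕ → ℝ := fun p n => if ∃ i, (p : ℤ) ∣ α i * n + b i then 1 else 0 with hu
  have hper : ∀ p x x', x ≡ x' [MOD p] → u p x = u p x' := by
    intro p x x' hx
    have h := hx.dvd
    refine if_congr (exists_congr fun i => ?_) rfl rfl
    refine (dvd_iff_dvd_of_dvd_sub ?_).symm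
    have : (α i : ℤ) * x' + b i - (α i * x + b i) = α i * (x' - x) := by ring
    rw [this]
    exact h.mul_left _
  have hloc : ∀ p ∈ S, ∑ x ∈ range p, u p x = k := fun p hp => by
    rw [hu, sum_boole, loc_card (hS p hp).1 α b (hS p hp).2.2.1 (hS p hp).2.2.2]
  have h1 := crtS S (fun p hp => (hS p hp).1) u fun p _ => hper p
  rw [prod_congr rfl hloc] at h1
  have h2 := per_err (∏ p ∈ S, p) (prod_pos fun p hp => (hS p hp).1.pos)
    (fun x => ∏ p ∈ S, u p x)
    (fun x x' hx => prod_congr rfl fun s hs => hper s _ _ (hx.of_dvd (dvd_prod_of_mem _ hs)))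
    (fun x => prod_nonneg fun p _ => by simp only [hu]; split_ifs <;> norm_num) X
  rw [h1] at h2
  have h3 : (((range X).filter fun n => ∀ p ∈ S,
      n ∈ (range X).filter fun n : ℕ => ∃ i, (p : ℤ) ∣ α i * n + b i).card : ℝ) =
      ∑ x ∈ range X, ∏ p ∈ S, u p x := by
    rw [card_filter]
    push_cast
    refine sum_congr rfl fun x hx => ?_
    rw [hu, prod_boole]
    refine if_congr (forall₂_congr fun p _ => ?_) rfl rfl
    rw [mem_filter, and_iff_right hx]
  rw [h3, prod_div_distrib]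
  rw [Nat.cast_prod] at h2 ⊢
  refine h2.trans ?_
  exact prod_le_prod (fun _ _ => Nat.cast_nonneg _) fun p hp => by exact_mod_cast (hS p hp).2.1

theorem ev2 (C : ℝ) (n : ℕ) : ∀ᶠ L : ℝ in atTop, C * Real.log L ^ n ≤ Real.sqrt L / 2 := by
  have h := (Real.isLittleO_pow_log_id_atTop (n := n)).comp_tendsto Real.tendsto_sqrt_atTop
  have h2 := h.bound (c := 1 / (2 * (|C| * 2 ^ n + 1))) (by positivity)
  filter_upwards [h2, eventually_ge_atTop 1] with L hL h1
  have h3 : Real.log L = 2 * Real.log (Real.sqrt L) := by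
    rw [Real.log_sqrt (by linarith)]; ring
  have h4 : 0 ≤ Real.log (Real.sqrt L) := Real.log_nonneg (Real.one_le_sqrt.2 h1)
  simp only [Function.comp, id, Real.norm_eq_abs] at hL
  rw [abs_of_nonneg (pow_nonneg h4 _), abs_of_nonneg (Real.sqrt_nonneg _), one_div,
    ← div_eq_inv_mul, le_div_iff₀ (by positivity)] at hL
  have h5 : C * 2 ^ n ≤ |C| * 2 ^ n + 1 := by
    have := mul_le_mul_of_nonneg_right (le_abs_self C) (by positivity : (0 : ℝ) ≤ 2 ^ n)
    linarith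
  have h6 := mul_le_mul_of_nonneg_right h5 (pow_nonneg h4 n)
  rw [h3, mul_pow]
  nlinarith

theorem ev3 (k : ℕ) : ∀ᶠ L : ℝ in atTop, L ^ k ≤ Real.exp (L / 7) / 2 := by
  have h := (Real.isLittleO_pow_exp_atTop (n := k)).comp_tendsto
    (tendsto_id.atTop_div_const (by norm_num : (0 : ℝ) < 7))
  have h2 := h.bound (c := 1 / (2 * 7 ^ k)) (by positivity)
  filter_upwards [h2, eventually_ge_atTop 0] with L hL h1
  simp only [Function.comp, id, Real.norm_eq_abs] at hL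
  rw [abs_of_nonneg (by positivity), abs_of_nonneg (Real.exp_pos _).le, div_pow, one_div,
    ← div_eq_inv_mul, div_le_div_iff₀ (by positivity) (by positivity)] at hL
  have h7 : (0 : ℝ) < 7 ^ k := by positivity
  rw [le_div_iff₀ (by norm_num)]
  refine le_of_mul_le_mul_right ?_ h7
  linarith

theorem rowSV : RowSEL → RowSG → RowSV := by
  classical
  rintro hSEL ⟨c, hc, B, hSG⟩ k a hk
  have hlog : Tendsto (fun X : ℕ => Real.log X) atTop atTop :=
    Real.tendsto_log_atTop.comp tendsto_natCast_atTop_atTop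
  have hk' : (1 : ℝ) ≤ k := by exact_mod_cast hk
  filter_upwards [hlog.eventually (ev2 ((14 * k * (2 * a + 1) ^ B / c) ^ k) (B * k)),
    hlog.eventually (ev3 k), hlog.eventually (eventually_ge_atTop (14 * k + 4 : ℝ)),
    eventually_ge_atTop 1] with X e2 e3 e4 hX α b hαb hdet
  set L := Real.log X with hL
  have hXL : (X : ℝ) = Real.exp L := (Real.exp_log (by exact_mod_cast hX)).symm
  have hL1 : 1 ≤ L := by linarith
  set w : ℕ := ⌈2 * L ^ (2 * a)⌉₊ + k + 1 with hw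
  set Y : ℕ := ⌈Real.exp (L / (14 * k))⌉₊ with hY
  have hp1 : 1 ≤ L ^ a := one_le_pow₀ hL1
  have hp2 : L ^ (2 * a) = L ^ a * L ^ a := by rw [two_mul, pow_add]
  have hw1 : 2 * L ^ (2 * a) ≤ w := by
    have := Nat.le_ceil (2 * L ^ (2 * a))
    rw [hw]; push_cast; linarith
  have hw2 : (w : ℝ) ≤ L ^ (2 * a + 1) := by
    have := (Nat.ceil_lt_add_one (by positivity : 0 ≤ 2 * L ^ (2 * a))).le
    have h1 : 1 ≤ L ^ (2 * a) := one_le_pow₀ hL1
    rw [hw, pow_succ]; push_cast; nlinarith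
  have hw3 : (2 : ℝ) ≤ w := by rw [hw]; push_cast; linarith [Nat.cast_nonneg (α := ℝ) ⌈2 * L ^ (2 * a)⌉₊]
  have hY1 : Real.exp (L / (14 * k)) ≤ Y := Nat.le_ceil _
  have hE : 2 ≤ Real.exp (L / (14 * k)) := by
    have h1 : 1 ≤ L / (14 * k) := by rw [le_div_iff₀ (by positivity)]; linarith
    linarith [Real.add_one_le_exp (L / (14 * k))]
  have hY2 : (Y : ℝ) ≤ Real.exp (L / (7 * k)) := by
    have h1 := (Nat.ceil_lt_add_one (Real.exp_pos (L / (14 * k))).le).le
    have h2 : L / (7 * k) = L / (14 * k) + L / (14 * k) := by field_simp; norm_num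
    rw [h2, Real.exp_add]
    nlinarith
  have hY3 : ((Y ^ k : ℕ) : ℝ) ≤ Real.exp (L / 7) := by
    have h2 : L / 7 = k * (L / (7 * k)) := by field_simp
    rw [h2, Real.exp_nat_mul]
    push_cast
    exact pow_le_pow_left₀ (Nat.cast_nonneg _) hY2 k
  have hY0 : 1 ≤ Y := by
    have : (1 : ℝ) ≤ Y := by linarith
    exact_mod_cast this
  have hYk : 1 ≤ Y ^ k := Nat.one_le_pow _ _ hY0
  have hG := hSG k w Y hk (by omega) hY0
  set Z : ℕ := Y ^ k with hZ
  set F := ((range (Z + 1)).filter fun p => p.Prime ∧ w < p).powerset.filter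
    (fun D => ∏ p ∈ D, p ≤ Z) with hF
  have hFm : ∀ D ∈ F, (∀ p ∈ D, p ≤ Z ∧ p.Prime ∧ w < p) ∧ ∏ p ∈ D, p ≤ Z := fun D hD => by
    obtain ⟨h1, h2⟩ := mem_filter.1 hD
    refine ⟨fun p hp => ?_, h2⟩
    obtain ⟨h3, h4⟩ := mem_filter.1 (mem_powerset.1 h1 hp)
    exact ⟨Nat.lt_succ_iff.1 (mem_range.1 h3), h4⟩
  have hgood : ∀ p : ℕ, p.Prime → w < p → p.Prime ∧ k ≤ p ∧ (∀ i, ¬ p ∣ α i) ∧
      ∀ i j, i ≠ j → ¬ (p : ℤ) ∣ α i * b j - α j * b i := by
    intro p hp hwp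
    have hwp' : (w : ℝ) < p := by exact_mod_cast hwp
    refine ⟨hp, by omega, fun i h => ?_, fun i j hij h => ?_⟩
    · have h1 : (p : ℝ) ≤ α i := by exact_mod_cast Nat.le_of_dvd (hαb i).1 h
      have := (hαb i).2.1
      nlinarith
    · have h1 := Int.le_of_dvd (abs_pos.2 (sub_ne_zero.2 (hdet i j hij))) ((dvd_abs _ _).2 h)
      have h2 : (p : ℝ) ≤ |(α i : ℝ) * b j - α j * b i| := by exact_mod_cast h1
      have h3 : ∀ i j, |(α i : ℝ) * b j| ≤ L ^ a * L ^ a := fun i j => by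
        rw [abs_mul, Nat.abs_cast]
        exact mul_le_mul (hαb i).2.1 (hαb j).2.2 (abs_nonneg _) (by positivity)
      have h4 := abs_sub ((α i : ℝ) * b j) (α j * b i)
      linarith [h3 i j, h3 j i]
  have hS := hSEL (range X) (fun p => (range X).filter fun n : ℕ => ∃ i, (p : ℤ) ∣ α i * n + b i)
    F (fun p => (k : ℝ) / p) X (Z * Z) (by simp [hF, hYk]) (fun D hD D' hD' => ?_)
    (fun D hD p hp => ?_) fun D hD D' hD' => ?_
  rotate_left
  · obtain ⟨h1, h2⟩ := mem_filter.1 hD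
    refine mem_filter.2 ⟨mem_powerset.2 (hD'.trans (mem_powerset.1 h1)), le_trans ?_ h2⟩
    exact prod_le_prod_of_subset_of_one_le' hD' fun p hp _ => ((hFm D hD).1 p hp).2.1.one_le
  · have h1 : k < p := by have := ((hFm D hD).1 p hp).2.2; omega
    have h2 : (k : ℝ) < p := by exact_mod_cast h1
    exact ⟨div_pos (by linarith) (by linarith), (div_lt_one (by linarith)).2 h2⟩
  · have h0 : ∀ p ∈ D ∪ D', p.Prime ∧ w < p := fun p hp =>
      (mem_union.1 hp).elim (fun h => ((hFm D hD).1 p h).2) fun h => ((hFm D' hD').1 p h).2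
    refine (cnt_err α b X (D ∪ D') fun p hp => hgood p (h0 p hp).1 (h0 p hp).2).trans ?_
    have h1 : ∏ p ∈ D ∪ D', p ≤ (∏ p ∈ D, p) * ∏ p ∈ D', p := by
      rw [← prod_union_inter]
      exact Nat.le_mul_of_pos_right _
        (prod_pos fun p hp => ((hFm D hD).1 p (mem_inter.1 hp).1).2.1.pos)
    exact_mod_cast h1.trans (Nat.mul_le_mul (hFm D hD).2 (hFm D' hD').2)
  have hZ2 : (Z : ℝ) * Z ≤ X := by
    rw [hXL]
    refine (mul_le_mul hY3 hY3 (Nat.cast_nonneg _) (Real.exp_pos _).le).trans ?_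
    rw [← Real.exp_add]
    exact Real.exp_le_exp.2 (by linarith)
  have hsub : ((range X).filter fun n : ℕ => ∀ i, ∃ p : ℕ, p.Prime ∧ X < p ^ 2 ∧
      (p : ℤ) = α i * n + b i) ⊆ (range X).filter fun n => ∀ D ∈ F, ∀ p ∈ D,
        n ∉ (range X).filter fun n : ℕ => ∃ i, (p : ℤ) ∣ α i * n + b i := by
    intro n hn
    obtain ⟨h1, h2⟩ := mem_filter.1 hn
    refine mem_filter.2 ⟨h1, fun D hD p hp h => ?_⟩
    obtain ⟨i, hi⟩ := (mem_filter.1 h).2
    obtain ⟨q, hq, hq2, e⟩ := h2 i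
    rw [← e, Int.natCast_dvd_natCast] at hi
    obtain ⟨h3, h4, -⟩ := (hFm D hD).1 p hp
    rw [(Nat.prime_dvd_prime_iff_eq h4 hq).1 hi] at h3
    have h5 : Z * Z ≤ X := by exact_mod_cast hZ2
    nlinarith
  have hcard : F.card ≤ Z := by
    rw [← Nat.add_sub_cancel Z 1, ← Nat.card_Icc]
    refine card_le_card_of_injOn (fun D => ∏ p ∈ D, p) (fun D hD => ?_) fun D hD D' hD' e => ?_
    · exact mem_coe.2 (mem_Icc.2 ⟨prod_pos fun p hp => ((hFm D hD).1 p hp).2.1.pos, (hFm D hD).2⟩)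
    · rw [← Nat.primeFactors_prod fun p hp => ((hFm D hD).1 p hp).2.1,
        ← Nat.primeFactors_prod fun p hp => ((hFm D' hD').1 p hp).2.1]
      exact congrArg _ e
  have hT : ∑ D ∈ F, ∏ p ∈ D, 1 / ((k : ℝ) / p) ≤ Z * Z := by
    refine (sum_le_card_nsmul F _ (Z : ℝ) fun D hD => ?_).trans ?_
    · refine le_trans (prod_le_prod (g := fun p : ℕ => (p : ℝ)) (fun p _ => by positivity)
        fun p _ => ?_) ?_
      · rw [one_div_div]
        exact div_le_self (Nat.cast_nonneg _) hk'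
      · rw [← Nat.cast_prod]
        exact Nat.cast_le.2 (hFm D hD).2
    · rw [nsmul_eq_mul]
      exact mul_le_mul_of_nonneg_right (by exact_mod_cast hcard) (Nat.cast_nonneg _)
  have hT0 : 0 ≤ ∑ D ∈ F, ∏ p ∈ D, 1 / ((k : ℝ) / p) :=
    sum_nonneg fun D _ => prod_nonneg fun p _ => by positivity
  have hlw : 0 < Real.log w := Real.log_pos (by linarith)
  have hlw2 : Real.log w ≤ (2 * a + 1) * Real.log L := by
    have := Real.log_le_log (by linarith) hw2
    rw [Real.log_pow] at this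
    exact_mod_cast this
  have hlY : L / (14 * k) ≤ Real.log Y := (Real.le_log_iff_exp_le (by linarith)).2 hY1
  set M : ℝ := 14 * k * ((2 * a + 1) * Real.log L) ^ B / c with hM
  have hM0 : 0 < M := by
    have : 0 < (2 * a + 1) * Real.log L := hlw.trans_le hlw2
    positivity
  have hG1 : L / M ≤ c * Real.log Y / Real.log w ^ B := by
    have h0 : 0 < (2 * a + 1) * Real.log L := hlw.trans_le hlw2
    have h1 : L / M = c * (L / (14 * k)) / ((2 * a + 1) * Real.log L) ^ B := by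
      rw [hM]; field_simp
    rw [h1]
    exact div_le_div₀ (mul_nonneg hc.le (Real.log_natCast_nonneg _))
      (mul_le_mul_of_nonneg_left hlY hc.le) (pow_pos hlw _) (pow_le_pow_left₀ hlw.le hlw2 _)
  have hG2 := (pow_le_pow_left₀ (by positivity) hG1 k).trans hG
  have hMk : M ^ k ≤ Real.sqrt L / 2 := by
    refine le_trans (le_of_eq ?_) e2
    rw [hM, pow_mul, ← mul_pow, mul_pow ((2 : ℝ) * a + 1)]
    refine congrArg (· ^ k) ?_
    ring
  have hA : (X : ℝ) / (∑ D ∈ F, ∏ p ∈ D, ((k : ℝ) / p) / (1 - (k : ℝ) / p)) * L ^ k ≤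
      X * (Real.sqrt L / 2) := by
    refine le_trans (mul_le_mul_of_nonneg_right (div_le_div_of_nonneg_left (Nat.cast_nonneg _)
      (by positivity) hG2) (by positivity)) ?_
    rw [div_pow, div_div_eq_mul_div, div_mul_cancel₀ _ (by positivity)]
    exact mul_le_mul_of_nonneg_left hMk (Nat.cast_nonneg _)
  have hB : (Z : ℝ) * Z * (∑ D ∈ F, ∏ p ∈ D, 1 / ((k : ℝ) / p)) ^ 2 * L ^ k ≤
      X * (Real.sqrt L / 2) := by
    have h1 : (Z : ℝ) * Z * (∑ D ∈ F, ∏ p ∈ D, 1 / ((k : ℝ) / p)) ^ 2 ≤ Real.exp (L / 7) ^ 6 := by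
      refine (mul_le_mul_of_nonneg_left (pow_le_pow_left₀ hT0 hT 2) (by positivity)).trans ?_
      have : (Z : ℝ) * Z * (Z * Z) ^ 2 = Z ^ 6 := by ring
      rw [this]
      exact pow_le_pow_left₀ (Nat.cast_nonneg _) hY3 6
    have h2 : Real.exp (L / 7) ^ 6 * (Real.exp (L / 7) / 2) = X / 2 := by
      rw [hXL, ← mul_div_assoc, ← pow_succ, ← Real.exp_nat_mul]
      refine congrArg (fun t => Real.exp t / 2) ?_
      push_cast; ring
    refine (mul_le_mul h1 e3 (by positivity) (by positivity)).trans ?_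
    have h3 := Real.one_le_sqrt.2 hL1
    have h4 : (0 : ℝ) ≤ X := Nat.cast_nonneg _
    rw [h2]
    nlinarith
  have h1 := mul_le_mul_of_nonneg_right ((Nat.cast_le.2 (card_le_card hsub)).trans hS)
    (by positivity : 0 ≤ L ^ k)
  rw [add_mul] at h1
  linarith

end Pool.Agent.MP_db5b97_nt.H55
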