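import Pool.Agent.MP_db5b97_nt.H85.Bas

/-! Modules over a finite `p`-group with vanishing Tate cohomology in two consecutive degrees. -/

namespace Pool.Agent.MP_db5b97_nt.H55

open H85

variable {P A B C : Type} [Group P] [AddCommGroup A] [DistribMulAction P A] [AddCommGroup B]
  [DistribMulAction P B] [AddCommGroup C] [DistribMulAction P C]

variable (P) in
/-- equivariant maps -/
def Eqv (f : A →+ B) : Prop := ∀ (s : P) x, f (s • x) = s • f x

theorem ex_quot (ι : A →+ B) (hι : Eqv P ι) :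
    ∃ (C : Type) (_ : AddCommGroup C) (_ : DistribMulAction P C) (π : B →+ C),
      Function.Surjective π ∧ Eqv P π ∧ ∀ b, π b = 0 ↔ ∃ a, ι a = b := by
  let m : P → (B ⧸ ι.range) →+ (B ⧸ ι.range) := fun s =>
    QuotientAddGroup.map _ _ (DistribSMul.toAddMonoidHom B s) (by
      rintro _ ⟨a, rfl⟩
      exact ⟨s • a, hι s a⟩)
  let act : DistribMulAction P (B ⧸ ι.range) :=
    { smul := fun s x => m s x
      one_smul := fun x => QuotientAddGroup.induction_on x fun b =>
        congrArg QuotientAddGroup.mk (one_smul P b)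
      mul_smul := fun s t x => QuotientAddGroup.induction_on x fun b =>
        congrArg QuotientAddGroup.mk (mul_smul s t b)
      smul_zero := fun s => (m s).map_zero
      smul_add := fun s => (m s).map_add }
  exact ⟨B ⧸ ι.range, inferInstance, act, QuotientAddGroup.mk' _,
    QuotientAddGroup.mk'_surjective _, fun _ _ => rfl, fun b => QuotientAddGroup.eq_zero_iff b⟩

theorem ex_ker (π : B →+ C) (hπ : Eqv P π) :
    ∃ (A : Type) (_ : AddCommGroup A) (_ : DistribMulAction P A) (ι : A →+ B),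
      Function.Injective ι ∧ Eqv P ι ∧ ∀ b, π b = 0 ↔ ∃ a, ι a = b := by
  let act : DistribMulAction P π.ker :=
    { smul := fun s x => ⟨s • x.1, by
        rw [AddMonoidHom.mem_ker, hπ, AddMonoidHom.mem_ker.1 x.2, smul_zero]⟩
      one_smul := fun x => Subtype.ext (one_smul P x.1)
      mul_smul := fun s t x => Subtype.ext (mul_smul s t x.1)
      smul_zero := fun s => Subtype.ext (smul_zero s)
      smul_add := fun s x y => Subtype.ext (smul_add s x.1 y.1) }
  exact ⟨π.ker, inferInstance, act, π.ker.subtype, Subtype.val_injective, fun _ _ => rfl,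
    fun b => ⟨fun h => ⟨⟨b, h⟩, rfl⟩, fun ⟨a, h⟩ => h ▸ a.2⟩⟩

/-- coinduced modules -/
def Co (P A : Type) : Type := P → A

instance {P A : Type} [AddCommGroup A] : AddCommGroup (Co P A) :=
  inferInstanceAs (AddCommGroup (P → A))

instance {P A : Type} [Group P] [AddCommGroup A] : DistribMulAction P (Co P A) where
  smul s f := fun t => f (t * s)
  one_smul f := funext fun t => congrArg f (mul_one t)
  mul_smul s s' f := funext fun t => congrArg f (mul_assoc t s s').symm
  smul_zero _ := rfl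
  smul_add _ _ _ := rfl

namespace Co

variable {P A : Type} [Group P] [AddCommGroup A]

theorem smul_apply (s : P) (f : Co P A) (t : P) : (s • f) t = f (t * s) := rfl

omit [Group P] in
theorem add_apply (f g : Co P A) (t : P) : (f + g) t = f t + g t := rfl

omit [Group P] in
theorem sub_apply (f g : Co P A) (t : P) : (f - g) t = f t - g t := rfl

omit [Group P] in
theorem zero_apply (t : P) : (0 : Co P A) t = 0 := rfl

omit [Group P] in
theorem sum_apply {ι : Type} (S : Finset ι) (f : ι → Co P A) (t : P) :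
    (∑ i ∈ S, f i) t = ∑ i ∈ S, f i t := Finset.sum_apply t S f

omit [Group P] in
open Classical in
/-- cut off by a predicate -/
noncomputable def cut (χ : P → Prop) : Co P A →+ Co P A where
  toFun f := fun t => if χ t then f t else 0
  map_zero' := funext fun t => by simp [zero_apply]
  map_add' f g := funext fun t => by
    rw [add_apply, add_apply]
    split_ifs <;> simp

omit [Group P] in
open Classical in
theorem cut_apply (χ : P → Prop) (f : Co P A) (t : P) :
    cut χ f t = if χ t then f t else 0 := rfl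

end Co

theorem lift_free {M B C : Type} [AddCommGroup M] [Module.Free ℤ M] [AddCommGroup B]
    [AddCommGroup C] (π : B →+ C) (hπ : Function.Surjective π) (g : M →+ C) :
    ∃ g' : M →+ B, ∀ m, π (g' m) = g m := by
  obtain ⟨h, hh⟩ := Module.projective_lifting_property π.toIntLinearMap g.toIntLinearMap hπ
  exact ⟨h.toAddMonoidHom, fun m => LinearMap.congr_fun hh m⟩

theorem sec_p {V W : Type} [AddCommGroup V] [AddCommGroup W] {p : ℕ} (pp : p.Prime)
    (hV : ∀ x : V, p • x = 0) (hW : ∀ x : W, p • x = 0) (N : V →+ W)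
    (hN : Function.Surjective N) : ∃ σ : W →+ V, ∀ w, N (σ w) = w := by
  have := Fact.mk pp
  obtain ⟨mV⟩ : Nonempty (Module (ZMod p) V) := ⟨AddCommGroup.zmodModule hV⟩
  obtain ⟨mW⟩ : Nonempty (Module (ZMod p) W) := ⟨AddCommGroup.zmodModule hW⟩
  obtain ⟨σ, hσ⟩ := (N.toZModLinearMap p).exists_rightInverse_of_surjective
    (LinearMap.range_eq_top.2 hN)
  exact ⟨σ.toAddMonoidHom, fun w => LinearMap.congr_fun hσ w⟩

theorem fix_lift {ι : A →+ B} {π : B →+ C} (hι : Eqv P ι) (hπ : Eqv P π)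
    (hi : Function.Injective ι) (hs : Function.Surjective π) (he : ∀ b, π b = 0 ↔ ∃ a, ι a = b)
    {Q : Subgroup P} (h : H90 A Q) {x : C} (hx : x ∈ Fix C Q) : ∃ b ∈ Fix B Q, π b = x := by
  obtain ⟨b, rfl⟩ := hs x
  have : ∀ s : P, ∃ a, s ∈ Q → ι a = s • b - b := fun s => by
    by_cases hs : s ∈ Q
    · obtain ⟨a, ha⟩ := (he (s • b - b)).1 (by rw [map_sub, hπ, hx s hs, sub_self])
      exact ⟨a, fun _ => ha⟩
    · exact ⟨0, fun h => absurd h hs⟩
  choose c hc using this
  obtain ⟨a, ha⟩ := h c fun s hs t ht => hi (by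
    rw [map_add, hι, hc _ (mul_mem hs ht), hc s hs, hc t ht, mul_smul, smul_sub]
    abel)
  refine ⟨b - ι a, fun s hs => ?_, by rw [map_sub, (he _).2 ⟨a, rfl⟩, sub_zero]⟩
  have := hc s hs
  rw [ha s hs, map_sub, hι] at this
  rw [smul_sub]
  linear_combination (norm := abel1) -this

section Tr

variable [Fintype P]

variable (P) in
/-- the trace of an additive map -/
def Tr (h : A →+ B) : A →+ B :=
  ∑ s : P, ((DistribSMul.toAddMonoidHom B s).comp h).comp (DistribSMul.toAddMonoidHom A s⁻¹)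

theorem Tr_apply (h : A →+ B) (x : A) : Tr P h x = ∑ s : P, s • h (s⁻¹ • x) := by
  simp [Tr, AddMonoidHom.finsetSum_apply]

theorem Tr_eqv (h : A →+ B) : Eqv P (Tr P h) := fun g x => by
  rw [Tr_apply, Tr_apply, Finset.smul_sum, ← Equiv.sum_comp (Equiv.mulLeft g)]
  refine Finset.sum_congr rfl fun s _ => ?_
  simp [mul_smul]

theorem smul_sum_smul (g : P) (x : A) : g • ∑ s : P, s • x = ∑ s : P, s • x := by
  rw [Finset.smul_sum, ← Equiv.sum_comp (Equiv.mulLeft g) fun s => s • x]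
  simp [mul_smul]

theorem sum_smul_smul (g : P) (x : A) : ∑ s : P, s • g • x = ∑ s : P, s • x := by
  rw [← Equiv.sum_comp (Equiv.mulRight g) fun s => s • x]
  simp [mul_smul]

theorem sum_inv_smul (x : A) : ∑ s : P, s⁻¹ • x = ∑ s : P, s • x :=
  Equiv.sum_comp (Equiv.inv P) fun s => s • x

theorem sum_aug (y : P → A) : ∑ g : P, g • ∑ s : P, (s • y s - y s) = 0 := by
  simp only [Finset.smul_sum]
  rw [Finset.sum_comm]
  refine Finset.sum_eq_zero fun s _ => ?_
  simp only [smul_sub, Finset.sum_sub_distrib, sum_smul_smul, sub_self]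

theorem co_wi {D : Type} [AddCommGroup D] (x : Co P D) : Tr P (Co.cut (· = 1)) x = x := by
  funext t
  rw [Tr_apply, Co.sum_apply, Finset.sum_eq_single t⁻¹]
  · simp [Co.smul_apply, Co.cut_apply]
  · intro s _ hs
    rw [Co.smul_apply, Co.cut_apply, if_neg]
    exact fun h => hs (eq_inv_of_mul_eq_one_right h)
  · simp

omit [Fintype P] in
theorem ex_fixed {p : ℕ} (pp : p.Prime) (hP : IsPGroup p P) (W : AddSubgroup A) [Finite W]
    (hW : ∀ (s : P), ∀ x ∈ W, s • x ∈ W) (k : ℕ) (hk : ∀ x ∈ W, p ^ k • x = 0) (h : W ≠ ⊥) :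
    ∃ x ∈ W, x ≠ 0 ∧ p • x = 0 ∧ ∀ s : P, s • x = x := by
  have := Fact.mk pp
  let S : SubMulAction P A := ⟨W, fun s _ hx => hW s _ hx⟩
  have : Finite S := inferInstanceAs (Finite W)
  have hd : p ∣ Nat.card S := by
    obtain ⟨⟨x, hx⟩, h0⟩ := (AddSubgroup.ne_bot_iff_exists_ne_zero).1 h
    have h1 : addOrderOf (⟨x, hx⟩ : W) ∣ p ^ k :=
      addOrderOf_dvd_of_nsmul_eq_zero (Subtype.ext (hk x hx))
    obtain ⟨j, -, hj⟩ := (Nat.dvd_prime_pow pp).1 h1
    have h2 : j ≠ 0 := by
      rintro rfl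
      exact h0 (AddMonoid.addOrderOf_eq_one_iff.1 hj)
    exact ((dvd_pow_self p h2).trans (dvd_of_eq hj.symm)).trans (addOrderOf_dvd_natCard _)
  obtain ⟨b, hb, hb0⟩ := hP.exists_fixed_point_of_prime_dvd_card_of_fixed_point S hd
    (a := ⟨0, W.zero_mem⟩) fun s => Subtype.ext (smul_zero s)
  have hb1 : ∀ s : P, s • b.1 = b.1 := fun s => congrArg Subtype.val (hb s)
  have hb2 : b.1 ≠ 0 := fun h => hb0 (Subtype.ext h.symm)
  have hex : ∃ j, p ^ j • b.1 = 0 := ⟨k, hk _ b.2⟩
  classical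
  have h3 : Nat.find hex ≠ 0 := fun h => hb2 (by simpa [h] using Nat.find_spec hex)
  obtain ⟨j, hj⟩ := Nat.exists_eq_succ_of_ne_zero h3
  refine ⟨p ^ j • b.1, W.nsmul_mem b.2 _, Nat.find_min hex (by omega), ?_, fun s => ?_⟩
  · rw [smul_smul, ← pow_succ', ← Nat.succ_eq_add_one, ← hj]
    exact Nat.find_spec hex
  · rw [smul_comm, hb1]

omit [Fintype P] in
theorem nil_sub {p : ℕ} (pp : p.Prime) (hP : IsPGroup p P) (φ : A →+ A) (hφ : Eqv P φ)
    (h0 : ∀ x, p • x = 0 → (∀ s : P, s • x = x) → φ x = 0) (k n : ℕ) :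
    ∀ (W : AddSubgroup A) [Finite W], (∀ (s : P), ∀ x ∈ W, s • x ∈ W) →
      (∀ x ∈ W, p ^ k • x = 0) → Nat.card W ≤ n → ∀ x ∈ W, φ^[n] x = 0 := by
  induction n with
  | zero =>
    intro W _ _ _ h
    exact absurd h (Nat.card_pos (α := W)).not_ge
  | succ n ih =>
    intro W _ hW hk hn x hx
    by_cases h : W = ⊥
    · subst h
      rw [AddSubgroup.mem_bot.1 hx]
      exact Function.iterate_fixed φ.map_zero _
    obtain ⟨y, hy, hy0, hy1, hy2⟩ := ex_fixed pp hP W hW k hk h
    let f : W → W.map φ := fun w => ⟨φ w, w, w.2, rfl⟩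
    have hf : Function.Surjective f := by
      rintro ⟨_, w, hw, rfl⟩
      exact ⟨⟨w, hw⟩, rfl⟩
    have : Finite (W.map φ) := Finite.of_surjective f hf
    rw [Function.iterate_succ_apply]
    refine ih (W.map φ) ?_ ?_ ?_ _ ⟨x, hx, rfl⟩
    · rintro s _ ⟨w, hw, rfl⟩
      exact ⟨s • w, hW s w hw, hφ s w⟩
    · rintro _ ⟨w, hw, rfl⟩
      rw [← map_nsmul, hk w hw, map_zero]
    · by_contra hlt
      have hb := (Nat.bijective_iff_surjective_and_card f).2
        ⟨hf, le_antisymm (by omega) (Nat.card_le_card_of_surjective f hf)⟩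
      have : (⟨y, hy⟩ : W) = 0 := hb.1 (Subtype.ext ((h0 y hy1 hy2).trans φ.map_zero.symm))
      exact hy0 (congrArg Subtype.val this)

theorem nil_loc {p : ℕ} (pp : p.Prime) (hP : IsPGroup p P) (φ : A →+ A) (hφ : Eqv P φ)
    (h0 : ∀ x, p • x = 0 → (∀ s : P, s • x = x) → φ x = 0) (k : ℕ) (x : A)
    (hx : p ^ k • x = 0) : ∃ n, φ^[n] x = 0 := by
  let W := AddSubgroup.closure (Set.range fun s : P => s • x)
  have hk : ∀ y ∈ W, p ^ k • y = 0 := fun y hy => by
    refine AddSubgroup.closure_induction (p := fun y _ => p ^ k • y = 0) ?_ (smul_zero _)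
      (fun a b _ _ ha hb => by rw [smul_add, ha, hb, add_zero])
      (fun a _ ha => by rw [smul_neg, ha, neg_zero]) hy
    rintro _ ⟨s, rfl⟩
    rw [smul_comm, hx, smul_zero]
  have hW : ∀ (s : P), ∀ y ∈ W, s • y ∈ W := fun s y hy => by
    refine AddSubgroup.closure_induction (p := fun y _ => s • y ∈ W) ?_ (by simp)
      (fun a b _ _ ha hb => by rw [smul_add]; exact add_mem ha hb)
      (fun a _ ha => by rw [smul_neg]; exact neg_mem ha) hy
    rintro _ ⟨t, rfl⟩
    exact AddSubgroup.subset_closure ⟨s * t, mul_smul s t x⟩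
  have : AddGroup.FG W := (AddGroup.fg_iff_addSubgroup_fg W).2
    ((AddSubgroup.fg_iff W).2 ⟨_, rfl, Set.finite_range _⟩)
  have : Finite W := AddCommGroup.finite_of_fg_isAddTorsion W fun y =>
    isOfFinAddOrder_iff_nsmul_eq_zero.2 ⟨p ^ k, pow_pos pp.pos k, Subtype.ext (hk y y.2)⟩
  exact ⟨_, nil_sub pp hP φ hφ h0 k _ W hW hk le_rfl x
    (AddSubgroup.subset_closure ⟨1, one_smul P x⟩)⟩

theorem nil_unif {p : ℕ} (pp : p.Prime) (hP : IsPGroup p P) (φ : A →+ A) (hφ : Eqv P φ)
    (h0 : ∀ x, p • x = 0 → (∀ s : P, s • x = x) → φ x = 0) (k : ℕ) :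
    ∃ n, ∀ x, p ^ k • x = 0 → φ^[n] x = 0 := by
  obtain ⟨n, hn⟩ := nil_loc (A := {x : A // p ^ k • x = 0} → A) pp hP (φ.compLeft _)
    (fun s x => funext fun i => hφ s (x i))
    (fun x h1 h2 => funext fun i => h0 _ (congrFun h1 i) fun s => congrFun (h2 s) i) k
    Subtype.val (funext fun i => i.2)
  have key : ∀ (n : ℕ) (f : {x : A // p ^ k • x = 0} → A) i,
      (φ.compLeft _)^[n] f i = φ^[n] (f i) := by
    intro n
    induction n with
    | zero => exact fun _ _ => rfl
    | succ n ih => exact fun f i => ih _ i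
  exact ⟨n, fun x hx => (key n _ ⟨x, hx⟩).symm.trans (congrFun hn _)⟩

/-- a divisible module with vanishing Tate cohomology in degrees `0` and `-1` is weakly
injective -/
theorem wi_div {p : ℕ} (pp : p.Prime) (hP : IsPGroup p P)
    (hd : ∀ n : ℤ, n ≠ 0 → ∀ x : A, ∃ y, n • y = x)
    (h0 : ∀ x : A, (∀ s : P, s • x = x) → ∃ y, ∑ s : P, s • y = x)
    (h1 : ∀ x : A, ∑ s : P, s • x = 0 → ∃ y : P → A, x = ∑ s : P, (s • y s - y s)) :
    ∃ H : A →+ A, ∀ x, Tr P H x = x := by
  have := Fact.mk pp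
  let dv : DivisibleBy A ℤ := divisibleByOfSMulRightSurj A ℤ fun hn x => hd _ hn x
  have baer := Module.Baer.of_divisible A
  let V : AddSubgroup A := (nsmulAddMonoidHom p).ker
  let W : AddSubgroup A := V ⊓ Fix A (⊤ : Subgroup P)
  let N : V →+ W := AddMonoidHom.mk' (fun v => ⟨∑ s : P, s • v.1, by
      have hv : p • v.1 = 0 := v.2
      change p • (∑ s : P, s • v.1) = 0
      simp only [Finset.smul_sum, smul_comm p, hv, smul_zero, Finset.sum_const_zero],
      fun s _ => smul_sum_smul s _⟩)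
    fun x y => Subtype.ext (by simp [smul_add, Finset.sum_add_distrib])
  have hN : Function.Surjective N := by
    rintro ⟨w, hw, hw'⟩
    have hw : p • w = 0 := hw
    obtain ⟨y, rfl⟩ := h0 w fun s => hw' s trivial
    obtain ⟨u, hu⟩ := h1 (p • y) (by simpa only [Finset.smul_sum, smul_comm p] using hw)
    choose z hz using fun s => hd p (Int.natCast_ne_zero.2 pp.ne_zero) (u s)
    refine ⟨⟨y - ∑ s : P, (s • z s - z s), ?_⟩, Subtype.ext ?_⟩
    · change p • (y - ∑ s : P, (s • z s - z s)) = 0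
      simp only [natCast_zsmul] at hz
      simp only [smul_sub, Finset.smul_sum, smul_comm p, hz, hu, sub_self]
    · change ∑ s : P, s • (y - _) = _
      simp only [smul_sub (_ : P) y]
      rw [Finset.sum_sub_distrib, sum_aug, sub_zero]
  obtain ⟨σ, hσ⟩ := sec_p pp (fun x : V => Subtype.ext x.2) (fun x : W => Subtype.ext x.2.1) N hN
  obtain ⟨h, hh⟩ := baer.extension_property_addMonoidHom W.subtype Subtype.val_injective
    (V.subtype.comp σ)
  let φ : A →+ A := AddMonoidHom.id A - Tr P h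
  have hφ : Eqv P φ := fun s x => by simp [φ, Tr_eqv h s x, smul_sub]
  obtain ⟨k, hk⟩ := IsPGroup.iff_card.1 hP
  obtain ⟨n, hn⟩ := nil_unif pp hP φ hφ (fun x h1 h2 => by
    have hx : x ∈ W := ⟨h1, fun s _ => h2 s⟩
    have e1 : h x = σ ⟨x, hx⟩ := DFunLike.congr_fun hh ⟨x, hx⟩
    have e2 : ∑ s : P, s • (σ ⟨x, hx⟩).1 = x :=
      congrArg Subtype.val (hσ ⟨x, hx⟩)
    simp [φ, Tr_apply, h2, e1, e2]) k
  have key : ∀ n : ℕ, ∃ (H ψ : A →+ A), Eqv P ψ ∧ (∀ x, ψ x = φ^[n] x) ∧
      ∀ x, Tr P H x + ψ x = x := by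
    intro n
    induction n with
    | zero => exact ⟨0, AddMonoidHom.id A, fun _ _ => rfl, fun _ => rfl, by simp [Tr_apply]⟩
    | succ n ih =>
      obtain ⟨H, ψ, h1, h2, h3⟩ := ih
      refine ⟨h + H.comp φ, ψ.comp φ, fun s x => by simp [hφ s, h1 s], fun x => h2 _, fun x => ?_⟩
      have := h3 (φ x)
      rw [Tr_apply] at this ⊢
      simp only [AddMonoidHom.add_apply, AddMonoidHom.comp_apply, hφ _ x, smul_add,
        Finset.sum_add_distrib]
      rw [add_assoc, this, ← Tr_apply]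
      simp [φ]
  obtain ⟨H, ψ, h1, h2, h3⟩ := key n
  have hq : ((p ^ k : ℕ) : ℤ) ≠ 0 := Int.natCast_ne_zero.2 (pow_pos pp.pos k).ne'
  choose d hd using hd _ hq
  simp only [natCast_zsmul] at hd
  have hψ : ∀ x y, p ^ k • x = p ^ k • y → ψ x = ψ y := fun x y hxy => by
    rw [← sub_eq_zero, ← map_sub, h2]
    exact hn _ (by rw [smul_sub, hxy, sub_self])
  let χ : A →+ A := AddMonoidHom.mk' (fun x => ψ (d x)) fun x y => by
    rw [← map_add]
    exact hψ _ _ (by rw [smul_add, hd, hd, hd])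
  have hχ : ∀ (s : P) x, s • χ (s⁻¹ • x) = χ x := fun s x => by
    change s • ψ _ = ψ _
    rw [← h1]
    exact hψ _ _ (by rw [smul_comm, hd, hd, smul_inv_smul])
  refine ⟨H + χ, fun x => ?_⟩
  have := h3 x
  rw [Tr_apply] at this ⊢
  simp only [AddMonoidHom.add_apply, smul_add, Finset.sum_add_distrib, hχ, Finset.sum_const,
    Finset.card_univ, ← Nat.card_eq_fintype_card, hk]
  change _ + p ^ k • ψ _ = _
  rw [← map_nsmul, hd, this]

/-- equivariant maps from a free abelian group are traces -/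
theorem ct1 {p : ℕ} (pp : p.Prime) (hP : IsPGroup p P) [Module.Free ℤ B]
    (h0 : ∀ x : A, (∀ s : P, s • x = x) → ∃ y, ∑ s : P, s • y = x)
    (h1 : H90 A (⊤ : Subgroup P)) (f : B →+ A) (hf : Eqv P f) :
    ∃ g : B →+ A, ∀ m, Tr P g m = f m := by
  let D := CharacterModule A → AddCircle (1 : ℚ)
  let ι : A →+ Co P D := AddMonoidHom.mk' (fun z t χ => χ (t • z)) fun x y => by
    funext t χ
    simp only [smul_add, map_add]
    rfl
  have hι : Eqv P ι := fun s x => by
    funext t χ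
    exact congrArg χ (mul_smul t s x).symm
  have hi : Function.Injective ι := (injective_iff_map_eq_zero ι).2 fun x hx =>
    CharacterModule.eq_zero_of_character_apply fun χ => by
      have : χ ((1 : P) • x) = 0 := congrFun (congrFun hx 1) χ
      rwa [one_smul] at this
  obtain ⟨C, _, _, π, hs, hπ, he⟩ := ex_quot ι hι
  let e : Co P D →+ Co P D := Co.cut (· = 1)
  have hw : ∀ x, ∑ s : P, s • e (s⁻¹ • x) = x := fun x => (Tr_apply e x).symm.trans (co_wi x)
  have hπs : ∀ y : Co P D, π (∑ s : P, s • y) = ∑ s : P, s • π y := fun y => by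
    simp only [map_sum, hπ _ y]
  obtain ⟨H, hH⟩ := wi_div (A := C) pp hP (fun n hn x => by
      obtain ⟨y, rfl⟩ := hs x
      refine ⟨π fun t χ => DivisibleBy.div (y t χ) n, ?_⟩
      rw [← map_zsmul]
      exact congrArg π (funext fun t => funext fun χ => DivisibleBy.div_cancel _ hn))
    (fun x hx => by
      obtain ⟨b, hb, rfl⟩ := fix_lift hι hπ hi hs he h1 (x := x) fun s _ => hx s
      refine ⟨π (e b), ?_⟩
      rw [← hπs]
      refine congrArg π ?_
      simpa only [hb _ trivial] using hw b)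
    (fun x hx => by
      obtain ⟨b, rfl⟩ := hs x
      obtain ⟨a, ha⟩ := (he _).1 ((hπs b).trans hx)
      obtain ⟨z, rfl⟩ := h0 a fun s => hi (by rw [hι, ha, smul_sum_smul])
      have e1 : ∑ s : P, s • (b - ι z) = 0 := by
        simp only [smul_sub, Finset.sum_sub_distrib, ← ha, map_sum, hι _ z, sub_self]
      refine ⟨fun s => π (e (s⁻¹ • (b - ι z))), ?_⟩
      simp only [← hπ _ _, Finset.sum_sub_distrib, ← map_sum, hw, sum_inv_smul, e1, map_zero,
        sub_zero, map_sub, (he _).2 ⟨z, rfl⟩])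
  let g : B →+ Co P D := e.comp (ι.comp f)
  have hg : ∀ m, ∑ s : P, s • g (s⁻¹ • m) = ι (f m) := fun m => by
    simpa only [g, AddMonoidHom.comp_apply, hf _ m, hι _ (f m)] using hw (ι (f m))
  choose y hy using fun s : P => lift_free π hs (H.comp ((DistribSMul.toAddMonoidHom C s⁻¹).comp
    (π.comp (g.comp (DistribSMul.toAddMonoidHom B s)))))
  simp only [AddMonoidHom.comp_apply, DistribSMul.toAddMonoidHom_apply] at hy
  let g' : B →+ Co P D := g - ∑ s : P, (((DistribSMul.toAddMonoidHom _ s).comp (y s)).comp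
    (DistribSMul.toAddMonoidHom B s⁻¹) - y s)
  have hg' : ∀ m, g' m = g m - ∑ s : P, (s • y s (s⁻¹ • m) - y s m) := fun m => by
    simp [g', AddMonoidHom.finsetSum_apply]
  have hz : ∀ m, ∃ a, ι a = g' m := fun m => (he _).1 (by
    have e1 := hH (π (g m))
    have e2 : ∑ s : P, s⁻¹ • π (g (s • m)) = 0 := by
      rw [← (he _).2 ⟨f m, rfl⟩, ← hg, map_sum, ← Equiv.sum_comp (Equiv.inv P)]
      simp [hπ _ _]
    rw [Tr_apply] at e1
    simp only [hg', map_sub, map_sum, hπ _ _, hy, smul_inv_smul, Finset.sum_sub_distrib, e1]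
    rw [← map_sum, e2, map_zero, sub_zero, sub_self])
  choose a ha using hz
  refine ⟨AddMonoidHom.mk' a fun x y => hi (by rw [map_add, ha, ha, ha, map_add]),
    fun m => hi ?_⟩
  rw [Tr_apply, map_sum, ← hg]
  simp only [hι _ _, AddMonoidHom.mk'_apply, ha, hg', smul_sub, Finset.sum_sub_distrib,
    Finset.smul_sum]
  rw [sub_eq_self, sub_eq_zero, Finset.sum_comm, Finset.sum_comm (f := fun x s => x • y s _)]
  refine Finset.sum_congr rfl fun s _ => ?_
  rw [← Equiv.sum_comp (Equiv.mulRight s) fun x => x • y s (x⁻¹ • m)]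
  simp [mul_smul]

end Tr

end Pool.Agent.MP_db5b97_nt.H55
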