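import Pool.Agent.MP_db5b97_nt.H55.CT1

/-! Cyclic layers of a finite `p`-group. -/

namespace Pool.Agent.MP_db5b97_nt.H55

open H85

variable {P A B : Type} [Group P] [AddCommGroup A] [DistribMulAction P A] [AddCommGroup B]
  [DistribMulAction P B] {p : ℕ} {Q : Subgroup P} {σ : P}

/-- a cyclic layer -/
structure Lyr (p : ℕ) (Q : Subgroup P) (σ : P) : Prop where
  pp : p.Prime
  nr : σ ∈ Subgroup.normalizer (Q : Set P)
  pw : σ ^ p ∈ Q
  nm : σ ∉ Q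

variable (A) in
/-- fixed elements are norms -/
def H0z (p : ℕ) (Q : Subgroup P) (σ : P) : Prop :=
  ∀ x ∈ Fix A Q, σ • x = x → ∃ y ∈ Fix A Q, Nm σ p y = x

theorem Eqv.nm {f : A →+ B} (hf : Eqv P f) (σ : P) (n : ℕ) (x : A) :
    f (Nm σ n x) = Nm σ n (f x) := by
  simp only [Nm_apply, map_sum, hf _ x]

theorem Eqv.fix {f : A →+ B} (hf : Eqv P f) {x : A} (hx : x ∈ Fix A Q) : f x ∈ Fix B Q :=
  fun s hs => by rw [← hf, hx s hs]

theorem Eqv.fix_of {f : A →+ B} (hf : Eqv P f) (hi : Function.Injective f) {x : A}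
    (hx : f x ∈ Fix B Q) : x ∈ Fix A Q := fun s hs => hi (by rw [hf, hx s hs])

theorem smul_fix {g : P} (hg : g ∈ Subgroup.normalizer (Q : Set P)) {x : A} (hx : x ∈ Fix A Q) :
    g • x ∈ Fix A Q := fun s hs => by
  have := hx _ ((Subgroup.mem_normalizer_iff''.1 hg s).1 hs)
  rwa [mul_smul, mul_smul, inv_smul_eq_iff] at this

theorem nm_smul (σ : P) (n : ℕ) (x : A) : Nm σ n (σ • x) = σ • Nm σ n x := by
  simp only [Nm_apply, Finset.smul_sum, smul_smul, pow_mul_comm']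

theorem nm_df (σ : P) (n : ℕ) (x : A) : Nm σ n (σ • x - x) = σ ^ n • x - x := by
  induction n with
  | zero => simp [Nm_apply]
  | succ n ih =>
    rw [Nm_apply] at ih ⊢
    rw [Finset.sum_range_succ, ih, smul_sub, smul_smul, ← pow_succ]
    abel

theorem df_nm (σ : P) (n : ℕ) (x : A) : σ • Nm σ n x - Nm σ n x = σ ^ n • x - x := by
  rw [← nm_smul, ← map_sub, nm_df]

namespace Lyr

variable (L : Lyr p Q σ)
include L

theorem sm {x : A} (hx : x ∈ Fix A Q) : σ • x ∈ Fix A Q := smul_fix L.nr hx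

theorem df {x : A} (hx : x ∈ Fix A Q) : σ • x - x ∈ Fix A Q := sub_mem (L.sm hx) hx

theorem nf (n : ℕ) {x : A} (hx : x ∈ Fix A Q) : Nm σ n x ∈ Fix A Q := by
  rw [Nm_apply]
  exact sum_mem fun i _ => smul_fix (pow_mem L.nr i) hx

theorem nd {x : A} (hx : x ∈ Fix A Q) : Nm σ p (σ • x - x) = 0 := by
  rw [nm_df, hx _ L.pw, sub_self]

theorem dn {x : A} (hx : x ∈ Fix A Q) : σ • Nm σ p x = Nm σ p x := by
  rw [← sub_eq_zero, df_nm, hx _ L.pw, sub_self]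

theorem dvd {n : ℤ} (h : σ ^ n ∈ Q) : (p : ℤ) ∣ n := by
  by_contra hn
  obtain ⟨u, v, e⟩ := (Nat.prime_iff_prime_int.1 L.pp).irreducible.coprime_iff_not_dvd.2 hn
  refine L.nm ?_
  have : σ = (σ ^ p) ^ u * (σ ^ n) ^ v := by
    rw [← zpow_natCast, ← zpow_mul, ← zpow_mul, ← zpow_add, mul_comm _ u, mul_comm _ v, e,
      zpow_one]
  rw [this]
  exact mul_mem (zpow_mem L.pw u) (zpow_mem h v)

/-- the subgroup generated by `Q` and `σ` -/
def up : Subgroup P where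
  carrier := {g | ∃ i : ℤ, (σ ^ i)⁻¹ * g ∈ Q}
  one_mem' := ⟨0, by simp⟩
  mul_mem' := by
    rintro g g' ⟨i, hi⟩ ⟨j, hj⟩
    refine ⟨i + j, ?_⟩
    have e : (σ ^ (i + j))⁻¹ * (g * g') =
        (σ ^ j)⁻¹ * ((σ ^ i)⁻¹ * g) * σ ^ j * ((σ ^ j)⁻¹ * g') := by group
    rw [e]
    exact mul_mem ((Subgroup.mem_normalizer_iff''.1 (zpow_mem L.nr j) _).1 hi) hj
  inv_mem' := by
    rintro g ⟨i, hi⟩
    refine ⟨-i, ?_⟩
    have e : (σ ^ (-i))⁻¹ * g⁻¹ = σ ^ i * ((σ ^ i)⁻¹ * g)⁻¹ * (σ ^ i)⁻¹ := by group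
    rw [e]
    exact (Subgroup.mem_normalizer_iff.1 (zpow_mem L.nr i) _).1 (inv_mem hi)

theorem le_up : Q ≤ L.up := fun g hg => ⟨0, by simpa using hg⟩

theorem mem_up : σ ∈ L.up := ⟨1, by simp⟩

theorem ex_lt {g : P} (hg : g ∈ L.up) : ∃ i < p, (σ ^ i)⁻¹ * g ∈ Q := by
  obtain ⟨i, hi⟩ := hg
  have h0 : (0 : ℤ) < p := Int.natCast_pos.2 L.pp.pos
  obtain ⟨j, hj⟩ := Int.eq_ofNat_of_zero_le (Int.emod_nonneg i h0.ne')
  refine ⟨j, by have := Int.emod_lt_of_pos i h0; omega, ?_⟩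
  have e : (σ ^ j)⁻¹ * g = (σ ^ p) ^ (i / p) * ((σ ^ i)⁻¹ * g) := by
    rw [← zpow_natCast, ← zpow_natCast, ← hj, ← zpow_mul, ← mul_assoc, ← zpow_neg, ← zpow_neg,
      ← zpow_add, Int.emod_def]
    ring_nf
  rw [e]
  exact mul_mem (zpow_mem L.pw _) hi

open Classical in
theorem sum_ind {D : Type} [AddCommGroup D] (g : P) (v : D) :
    ∑ i ∈ Finset.range p, (if (σ ^ i)⁻¹ * g ∈ Q then v else 0) = if g ∈ L.up then v else 0 := by
  split_ifs with hg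
  · obtain ⟨i, hi, h⟩ := L.ex_lt hg
    rw [Finset.sum_eq_single i, if_pos h]
    · intro j hj hji
      refine if_neg fun h' => hji ?_
      have e : σ ^ ((i : ℤ) - j) = (σ ^ j)⁻¹ * g * ((σ ^ i)⁻¹ * g)⁻¹ := by group
      have := L.dvd (e ▸ mul_mem h' (inv_mem h))
      have hj := Finset.mem_range.1 hj
      have := Int.eq_zero_of_abs_lt_dvd this (abs_lt.2 ⟨by omega, by omega⟩)
      omega
    · exact fun h => absurd (Finset.mem_range.2 hi) h
  · exact Finset.sum_eq_zero fun i _ => if_neg fun h => hg ⟨i, by simpa using h⟩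

theorem co_aux {D : Type} [AddCommGroup D] : ∃ e : Co P D →+ Co P D,
    (∀ x ∈ Fix (Co P D) Q, e x ∈ Fix (Co P D) Q) ∧
      ∀ x, ∑ i ∈ Finset.range p, σ ^ i • e ((σ ^ i)⁻¹ • x) = x := by
  let r : P → P := fun t => (t : P ⧸ L.up).out
  have hr : ∀ t, ∀ g ∈ L.up, r (t * g) = r t := fun t g hg =>
    congrArg Quotient.out (QuotientGroup.mk_mul_of_mem t hg)
  refine ⟨Co.cut fun t => t⁻¹ * r t ∈ Q, fun x hx s hs => funext fun t => ?_,
    fun x => funext fun t => ?_⟩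
  · have : x (t * s) = x t := congrFun (hx s hs) t
    rw [Co.smul_apply, Co.cut_apply, Co.cut_apply, hr t s (L.le_up hs), this, mul_inv_rev,
      mul_assoc, Q.mul_mem_cancel_left (inv_mem hs)]
  · have h1 : t⁻¹ * r t ∈ L.up := QuotientGroup.eq.1 (QuotientGroup.out_eq' _).symm
    have := L.sum_ind (t⁻¹ * r t) (x t)
    rw [if_pos h1] at this
    rw [Co.sum_apply, ← this]
    refine Finset.sum_congr rfl fun i _ => ?_
    rw [Co.smul_apply, Co.cut_apply, Co.smul_apply, hr t _ (pow_mem L.mem_up i), mul_inv_rev,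
      mul_assoc, mul_inv_cancel_right]

theorem co_h0 {D : Type} [AddCommGroup D] : H0z (Co P D) p Q σ := by
  obtain ⟨e, h1, h2⟩ := L.co_aux (D := D)
  intro x hx h
  refine ⟨e x, h1 x hx, ?_⟩
  have : ∀ i : ℕ, (σ ^ i)⁻¹ • x = x := fun i =>
    inv_mem (pow_mem (MulAction.mem_stabilizer_iff.2 h) i)
  simpa only [Nm_apply, this] using h2 x

theorem co_h1 {D : Type} [AddCommGroup D] : H1z (Co P D) p Q σ := by
  obtain ⟨e, h1, h2⟩ := L.co_aux (D := D)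
  intro x hx h
  have h3 : ∑ i ∈ Finset.range p, (σ ^ i)⁻¹ • x = 0 := by
    have := congrArg (fun y => (σ ^ (p - 1))⁻¹ • y) h
    simp only [Nm_apply, Finset.smul_sum, smul_zero] at this
    rw [← this, ← Finset.sum_range_reflect]
    refine Finset.sum_congr rfl fun i hi => ?_
    have hi := Finset.mem_range.1 hi
    rw [smul_smul, show p - 1 = i + (p - 1 - i) by omega, pow_add]
    simp
  refine ⟨∑ i ∈ Finset.range p, Nm σ i (e ((σ ^ i)⁻¹ • x)), sum_mem fun i _ =>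
    L.nf i (h1 _ (smul_fix (inv_mem (pow_mem L.nr i)) hx)), ?_⟩
  rw [Finset.smul_sum, ← Finset.sum_sub_distrib]
  simp only [df_nm]
  rw [Finset.sum_sub_distrib, h2, ← map_sum, h3, map_zero, sub_zero]

theorem h90_up (h : H90 A Q) (h1 : H1z A p Q σ) : H90 A L.up := by
  intro c0 hc0
  obtain ⟨a, ha⟩ := h c0 fun s hs t ht => hc0 s (L.le_up hs) t (L.le_up ht)
  let c : P → A := fun s => c0 s - (s • a - a)
  have hc : ∀ s ∈ L.up, ∀ t ∈ L.up, c (s * t) = c s + s • c t := fun s hs t ht => by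
    simp only [c, hc0 s hs t ht, mul_smul, smul_sub]
    abel
  have hz : ∀ s ∈ Q, c s = 0 := fun s hs => sub_eq_zero.2 (ha s hs)
  have hn : ∀ n : ℕ, c (σ ^ n) = Nm σ n (c σ) := fun n => by
    induction n with
    | zero => simpa [Nm_apply] using hz 1 Q.one_mem
    | succ n ih =>
      rw [pow_succ, hc _ (pow_mem L.mem_up n) _ L.mem_up, ih, Nm_apply, Nm_apply,
        Finset.sum_range_succ]
  have hx : c σ ∈ Fix A Q := fun s hs => by
    have h2 := (Subgroup.mem_normalizer_iff''.1 L.nr s).1 hs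
    have e1 := hc s (L.le_up hs) σ L.mem_up
    have e2 := hc σ L.mem_up _ (L.le_up h2)
    rw [hz _ h2, smul_zero, add_zero, show σ * (σ⁻¹ * s * σ) = s * σ by group, e1, hz s hs,
      zero_add] at e2
    exact e2
  obtain ⟨y, hy, e⟩ := h1 _ hx ((hn p).symm.trans (hz _ L.pw))
  refine ⟨a + y, fun s hs => ?_⟩
  obtain ⟨i, -, hi⟩ := L.ex_lt hs
  have e1 := hc _ (pow_mem L.mem_up i) _ (L.le_up hi)
  have e2 := hy _ hi
  rw [mul_smul, inv_smul_eq_iff] at e2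
  rw [hz _ hi, smul_zero, add_zero, mul_inv_cancel_left, hn, e, nm_df, ← e2] at e1
  simp only [c] at e1
  rw [smul_add]
  linear_combination (norm := abel1) e1

open Classical in
theorem nrm_up [Fintype P] (h : ∀ x ∈ Fix A Q, ∃ y : A, ∑ s : P, (if s ∈ Q then s • y else 0) = x)
    (h0 : H0z A p Q σ) :
    ∀ x ∈ Fix A L.up, ∃ y : A, ∑ s : P, (if s ∈ L.up then s • y else 0) = x := by
  intro x hx
  obtain ⟨y, hy, rfl⟩ := h0 x (fun s hs => hx s (L.le_up hs)) (hx σ L.mem_up)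
  obtain ⟨z, rfl⟩ := h y hy
  refine ⟨z, ?_⟩
  simp only [← L.sum_ind, Nm_apply, Finset.smul_sum]
  rw [Finset.sum_comm]
  refine Finset.sum_congr rfl fun i _ => ?_
  rw [← Equiv.sum_comp (Equiv.mulLeft (σ ^ i))]
  refine Finset.sum_congr rfl fun s _ => ?_
  simp only [Equiv.coe_mulLeft, inv_mul_cancel_left, mul_smul, smul_ite, smul_zero]

end Lyr

theorem ex_lyr [Finite P] (pp : p.Prime) (hP : IsPGroup p P) (h : Q ≠ ⊤) : ∃ σ, Lyr p Q σ := by
  classical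
  have := Fact.mk pp
  have := hP.isNilpotent
  obtain ⟨τ, h1, h2⟩ := SetLike.exists_of_lt
    (Group.normalizerCondition_of_isNilpotent Q (lt_top_iff_ne_top.2 h))
  have hex : ∃ k, τ ^ p ^ k ∈ Q := by
    obtain ⟨k, hk⟩ := hP τ
    exact ⟨k, hk ▸ Q.one_mem⟩
  have h3 : Nat.find hex ≠ 0 := fun h => h2 (by simpa [h] using Nat.find_spec hex)
  obtain ⟨j, hj⟩ := Nat.exists_eq_succ_of_ne_zero h3
  refine ⟨τ ^ p ^ j, pp, pow_mem h1 _, ?_, Nat.find_min hex (by omega)⟩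
  rw [← pow_mul, ← pow_succ, ← Nat.succ_eq_add_one, ← hj]
  exact Nat.find_spec hex

/-- from the layers to the whole group -/
theorem ct2 [Fintype P] (pp : p.Prime) (hP : IsPGroup p P)
    (h : ∀ (Q : Subgroup P) (σ : P), Lyr p Q σ → H90 A Q → H0z A p Q σ ∧ H1z A p Q σ) :
    H90 A (⊤ : Subgroup P) ∧ ∀ x : A, (∀ s : P, s • x = x) → ∃ y, ∑ s : P, s • y = x := by
  classical
  let S : Subgroup P → Prop := fun Q =>
    H90 A Q ∧ ∀ x ∈ Fix A Q, ∃ y : A, ∑ s : P, (if s ∈ Q then s • y else 0) = x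
  have h0 : S ⊥ := by
    refine ⟨fun c hc => ⟨0, fun s hs => ?_⟩, fun x _ => ⟨x, ?_⟩⟩
    · rw [Subgroup.mem_bot.1 hs]
      simpa using hc 1 (one_mem _) 1 (one_mem _)
    · simp [Subgroup.mem_bot]
  obtain ⟨Q, -, hQ⟩ := Finite.exists_le_maximal h0
  have : Q = ⊤ := by
    by_contra hne
    obtain ⟨σ, L⟩ := ex_lyr pp hP hne
    obtain ⟨h1, h2⟩ := h Q σ L hQ.1.1
    exact L.nm (hQ.2 (y := L.up) ⟨L.h90_up hQ.1.1 h2, L.nrm_up hQ.1.2 h1⟩ L.le_up L.mem_up)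
  subst this
  exact ⟨hQ.1.1, fun x hx => by simpa using hQ.1.2 x fun s _ => hx s⟩

theorem fix_prod {x : A × B} : x ∈ Fix (A × B) Q ↔ x.1 ∈ Fix A Q ∧ x.2 ∈ Fix B Q :=
  ⟨fun h => ⟨fun s hs => congrArg Prod.fst (h s hs), fun s hs => congrArg Prod.snd (h s hs)⟩,
    fun h s hs => Prod.ext (h.1 s hs) (h.2 s hs)⟩

theorem nm_prod (σ : P) (n : ℕ) (x : A × B) : Nm σ n x = (Nm σ n x.1, Nm σ n x.2) :=
  Prod.ext (Eqv.nm (f := AddMonoidHom.fst A B) (fun _ _ => rfl) σ n x)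
    (Eqv.nm (f := AddMonoidHom.snd A B) (fun _ _ => rfl) σ n x)

theorem h1_prod (hA : H1z A p Q σ) (hB : H1z B p Q σ) : H1z (A × B) p Q σ := by
  intro x hx h
  rw [nm_prod] at h
  obtain ⟨a, ha, e⟩ := hA _ (fix_prod.1 hx).1 (congrArg Prod.fst h)
  obtain ⟨b, hb, e'⟩ := hB _ (fix_prod.1 hx).2 (congrArg Prod.snd h)
  exact ⟨(a, b), fix_prod.2 ⟨ha, hb⟩, Prod.ext e e'⟩

end Pool.Agent.MP_db5b97_nt.H55
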